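import Pool.Agent.Helper597.SSS

/-!
# Strongly series summable M-bases and the commuting bounded approximation property

A separable infinite dimensional complex Banach space has a strongly series summable M-basis if
and only if it has the commuting bounded approximation property.
-/

set_option autoImplicit false

open Filter Topology

namespace Pool.Agent.Results.MP_846550_an.CommutingCase

/-- `(x n)` with the functionals `(f n)` is an M-basis: biorthogonal, with dense linear span, and
the functionals are total. -/
def IsMBasis {E : Type*} [NormedAddCommGroup E] [NormedSpace ℂ E]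
    (x : ℕ → E) (f : ℕ → E →L[ℂ] ℂ) : Prop :=
  (∀ i j, f i (x j) = if i = j then 1 else 0) ∧
    Dense (Submodule.span ℂ (Set.range x) : Set E) ∧
    ∀ y, (∀ n, f n y = 0) → y = 0

/-- Strong series summability: there is a lower triangular array `lam` of scalars such that
`∑_{k ≤ n} lam n k • f k y • x k` tends to `y` in norm, for every `y`. -/
def IsStronglySeriesSummable {E : Type*} [NormedAddCommGroup E] [NormedSpace ℂ E]
    (x : ℕ → E) (f : ℕ → E →L[ℂ] ℂ) : Prop :=
  ∃ lam : ℕ → ℕ → ℂ, (∀ n m, n < m → lam n m = 0) ∧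
    ∀ y, Tendsto (fun n => ∑ k ∈ Finset.range (n + 1), (lam n k * f k y) • x k) atTop (𝓝 y)

/-- The commuting bounded approximation property (for a separable space): there are uniformly
bounded, pairwise commuting finite rank operators which converge strongly to the identity. -/
def HasCommutingBAP (E : Type*) [NormedAddCommGroup E] [NormedSpace ℂ E] : Prop :=
  ∃ (C : ℝ) (T : ℕ → E →L[ℂ] E),
    (∀ n, FiniteDimensional ℂ (LinearMap.range (T n : E →ₗ[ℂ] E))) ∧ (∀ n, ‖T n‖ ≤ C) ∧
    (∀ m n, T m * T n = T n * T m) ∧ ∀ y, Tendsto (fun n => T n y) atTop (𝓝 y)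

/-- A separable infinite dimensional complex Banach space has a strongly series summable M-basis
if and only if it has the commuting bounded approximation property. -/
theorem result (E : Type*) [NormedAddCommGroup E] [NormedSpace ℂ E] [CompleteSpace E]
    [TopologicalSpace.SeparableSpace E] (hE : ¬ FiniteDimensional ℂ E) :
    (∃ (x : ℕ → E) (f : ℕ → E →L[ℂ] ℂ), IsMBasis x f ∧ IsStronglySeriesSummable x f) ↔
      HasCommutingBAP E := by
  constructor
  · rintro ⟨x, f, ⟨hbi, -, -⟩, lam, -, hl⟩
    exact Pool.Agent.Helper597.SSS.converse x f hbi lam hl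
  · rintro ⟨C, T, hf, -, hc, hT⟩
    obtain ⟨S, s1, s2, s3, s4⟩ := Pool.Agent.Helper597.SSS.exists_S T hc hf hT
    obtain ⟨U, Q, h1, h2, h3, h4, h5, h6, h7, h8, h9⟩ :=
      Pool.Agent.Helper597.SSS.exists_UQ S s1 s2 s3 s4
    obtain ⟨x, f, b1, b2, b3, b4⟩ :=
      Pool.Agent.Helper597.SSS.assemble hE U Q h1 h2 h3 h4 h5 h6 h7 h8 h9
    exact ⟨x, f, ⟨b1, b2, b3⟩, b4⟩

end Pool.Agent.Results.MP_846550_an.CommutingCase
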